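import Pool.Agent.H19.Fo

/-! For combinatorial Banach spaces, `(¬ c₀)` implies `(Σ)`. -/

set_option maxHeartbeats 400000

namespace Pool.Agent.Results.MP_441f99_an.Sigma

open Finset Filter

/-- `‖x‖_F = sup_{B ∈ F} ∑_{i ∈ B} |x i|`. -/
noncomputable def normF (F : Set (Finset ℕ)) (x : ℕ → ℝ) : ENNReal :=
  ⨆ B ∈ F, ENNReal.ofReal (∑ i ∈ B, |x i|)

/-- The closure of `F`: the sets all of whose finite subsets lie in `F`. -/
def cl (F : Set (Finset ℕ)) : Set (Set ℕ) := {A | ∀ B : Finset ℕ, (B : Set ℕ) ⊆ A → B ∈ F}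

/-- An `F`-supported normalized block basic sequence. -/
def IsBlock (F : Set (Finset ℕ)) (x : ℕ → ℕ →₀ ℝ) : Prop :=
  ∀ n, (∀ i ∈ (x n).support, ∀ j ∈ (x (n + 1)).support, i < j) ∧ normF F (x n) = 1 ∧
    (x n).support ∈ F

/-- Property `(¬ c₀)`; `A.indicator y` is the projection `P_A y`. -/
def NotC0 (F : Set (Finset ℕ)) : Prop :=
  ∀ x, IsBlock F x → ⨆ A ∈ cl F, ∑' n, normF F (A.indicator (x n)) = ⊤

/-- Property `(Σ)`; the inner sum is the `ℓ₁` norm of `P_A (x n)`. -/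
def Sig (F : Set (Finset ℕ)) : Prop :=
  ∀ x, IsBlock F x → ∃ A ∈ cl F, ∑' n, ∑' i, ENNReal.ofReal |A.indicator (x n) i| = ⊤

lemma norm_le {F : Set (Finset ℕ)} {x : ℕ → ℝ} (D : Finset ℕ) (h : ∀ i, i ∉ D → x i = 0) :
    normF F x ≤ ENNReal.ofReal (∑ i ∈ D, |x i|) := by
  refine iSup₂_le fun B _ => ENNReal.ofReal_le_ofReal ?_
  rw [← sum_filter_add_sum_filter_not B (· ∈ D), sum_eq_zero (s := B.filter (· ∉ D))
    fun i hi => by simp [h i (mem_filter.1 hi).2], add_zero]
  exact sum_le_sum_of_subset_of_nonneg (fun i hi => (mem_filter.1 hi).2) fun i _ _ => abs_nonneg _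

lemma tails {F : Set (Finset ℕ)} (her : ∀ B ∈ F, ∀ C ⊆ B, C ∈ F) (h : NotC0 F) (u : ℕ → ℝ) (C : ℝ)
    (u0 : ∀ i, 0 ≤ u i) (u1 : ∀ B ∈ F, ∑ i ∈ B, u i ≤ C) (γ : ℝ) (hγ : γ > 0) :
    ∃ m, ∀ B ∈ F, (∀ i ∈ B, m ≤ i) → ∑ i ∈ B, u i ≤ γ := by
  classical
  by_contra hc
  push Not at hc
  choose g g1 g2 g3 using hc
  obtain ⟨m, m1, m2⟩ : ∃ m : ℕ → ℕ, Monotone m ∧ ∀ a, (g (m a)).sup id + 1 ≤ m (a + 1) :=
    ⟨fun k => Nat.rec 0 (fun _ r => max r ((g r).sup id + 1)) k,
      monotone_nat_of_le_succ fun k => le_max_left _ _, fun k => le_max_right _ _⟩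
  have lt : ∀ a b, a < b → ∀ i ∈ g (m a), ∀ j ∈ g (m b), i < j := by
    intro a b hab i hi j hj
    have h1 : i ≤ (g (m a)).sup id := le_sup (f := id) hi
    have h2 := m2 a
    have h3 := m1 (show a + 1 ≤ b by omega)
    have h4 := g2 _ j hj
    omega
  let y : ℕ → ℕ →₀ ℝ := fun k => Finsupp.onFinset (g (m k))
    (fun i => if i ∈ g (m k) then u i / ∑ j ∈ g (m k), u j else 0) fun i hi => by
      by_contra h'
      simp [h'] at hi
  have ys : ∀ k, (y k).support ⊆ g (m k) := fun k => Finsupp.support_onFinset_subset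
  have yin : ∀ k, ∀ i ∈ g (m k), |y k i| = u i / ∑ j ∈ g (m k), u j := fun k i hi => by
    simp only [y, Finsupp.onFinset_apply, if_pos hi]
    exact abs_of_nonneg (div_nonneg (u0 i) (hγ.trans (g3 _)).le)
  have yout : ∀ k i, i ∉ g (m k) → y k i = 0 := fun k i hi => by simp [y, hi]
  clear_value y
  have one : ∀ k, ∑ i ∈ g (m k), |y k i| = 1 := fun k => by
    rw [sum_congr rfl (yin k), ← sum_div, div_self (hγ.trans (g3 _)).ne']
  have hb : IsBlock F y := fun k => by
    refine ⟨fun i hi j hj => lt k (k + 1) (by omega) i (ys k hi) j (ys (k + 1) hj),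
      le_antisymm ?_ ?_, her _ (g1 _) _ (ys k)⟩
    · simpa [one] using norm_le (F := F) (g (m k)) (yout k)
    · refine le_trans ?_ (le_iSup₂_of_le (g (m k)) (g1 _) le_rfl)
      simp [one]
  refine (ne_top_of_le_ne_top (ENNReal.ofReal_ne_top (r := C / γ)) ?_) (h y hb)
  refine iSup₂_le fun A hA => ENNReal.summable.tsum_le_of_sum_le fun s => ?_
  have b1 : ∀ k, normF F (A.indicator (y k)) ≤
      ENNReal.ofReal ((∑ i ∈ (g (m k)).filter (· ∈ A), u i) / γ) := fun k => by
    refine (norm_le ((g (m k)).filter (· ∈ A)) fun i hi => ?_).trans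
      (ENNReal.ofReal_le_ofReal ?_)
    · by_cases hA' : i ∈ A
      · rw [Set.indicator_of_mem hA']
        exact yout k i fun h' => hi (mem_filter.2 ⟨h', hA'⟩)
      · exact Set.indicator_of_notMem hA' _
    · rw [sum_div]
      refine sum_le_sum fun i hi => ?_
      rw [Set.indicator_of_mem (mem_filter.1 hi).2, yin k i (mem_filter.1 hi).1]
      exact div_le_div_of_nonneg_left (u0 i) hγ (g3 _).le
  refine (sum_le_sum fun k _ => b1 k).trans ?_
  rw [← ENNReal.ofReal_sum_of_nonneg fun k _ => div_nonneg (sum_nonneg fun i _ => u0 i) hγ.le,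
    ← sum_div, ← sum_biUnion]
  · refine ENNReal.ofReal_le_ofReal (div_le_div_of_nonneg_right (u1 _ (hA _ ?_)) hγ.le)
    intro i hi
    obtain ⟨k, -, hk⟩ := mem_biUnion.1 hi
    exact (mem_filter.1 hk).2
  · intro a _ b _ hab
    refine disjoint_left.2 fun i h1 h2 => ?_
    rcases lt_or_gt_of_ne hab with h' | h'
    · exact (lt a b h' i (mem_filter.1 h1).1 i (mem_filter.1 h2).1).false
    · exact (lt b a h' i (mem_filter.1 h2).1 i (mem_filter.1 h1).1).false

theorem result (F : Set (Finset ℕ)) (her : ∀ B ∈ F, ∀ C ⊆ B, C ∈ F) (_cov : ∀ i, {i} ∈ F)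
    (h : NotC0 F) : Sig F := by
  intro x hx
  by_contra hc
  push Not at hc
  have x1 : ∀ n, 1 ≤ ∑ i ∈ (x n).support, |x n i| := fun n => by
    have := norm_le (F := F) (x := x n) (x n).support fun i hi => Finsupp.notMem_support_iff.1 hi
    rwa [(hx n).2.1, ENNReal.one_le_ofReal] at this
  have x2 : ∀ n, ∀ i ∈ (x n).support, n ≤ i := by
    intro n
    induction n with
    | zero => intro i _; omega
    | succ n ih =>
      intro j hj
      obtain ⟨i, hi⟩ : (x n).support.Nonempty := by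
        by_contra h'
        have := x1 n
        rw [not_nonempty_iff_eq_empty.1 h', sum_empty] at this
        linarith
      have := ih i hi
      have := (hx n).1 i hi j hj
      omega
  let w : ℕ → ℝ := fun i => ∑ n ∈ range (i + 1), |x n i|
  have w0 : ∀ i, 0 ≤ w i := fun i => sum_nonneg fun _ _ => abs_nonneg _
  refine Pool.Agent.H19.Fo.hump (w := w) her (tails her h) w0 (fun A hA => ?_) fun m C => ?_
  · refine ⟨_, fun B hB => (ENNReal.ofReal_le_iff_le_toReal (hc A hA)).1 ?_⟩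
    rw [ENNReal.tsum_comm, ENNReal.ofReal_sum_of_nonneg fun i _ => w0 i]
    refine le_trans (sum_le_sum fun i hi => ?_) (ENNReal.sum_le_tsum B)
    rw [ENNReal.ofReal_sum_of_nonneg fun _ _ => abs_nonneg _]
    simp only [Set.indicator_of_mem (hB hi)]
    exact ENNReal.sum_le_tsum _
  · by_contra hb
    push Not at hb
    obtain ⟨r, hr⟩ := tails her h w (∑ i ∈ range m, w i + C) w0 (fun B hB => by
      rw [← sum_filter_add_sum_filter_not B (· < m)]
      refine add_le_add (sum_le_sum_of_subset_of_nonneg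
        (fun i hi => mem_range.2 (mem_filter.1 hi).2) fun i _ _ => w0 i) ?_
      exact hb _ (her _ hB _ (filter_subset _ _)) fun i hi => not_lt.1 (mem_filter.1 hi).2)
      (1 / 2) (by norm_num)
    have h1 := hr _ (hx r).2.2 (x2 r)
    have h2 : ∑ i ∈ (x r).support, |x r i| ≤ ∑ i ∈ (x r).support, w i := sum_le_sum fun i hi =>
      single_le_sum (f := fun n => |x n i|) (fun _ _ => abs_nonneg _)
        (mem_range.2 (Nat.lt_succ_of_le (x2 r i hi)))
    linarith [x1 r]

end Pool.Agent.Results.MP_441f99_an.Sigma
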